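import Pool.Agent.H53.VK.Stm2

/-! Crew VK, part BCL (helper42): clean split with both sides on lines. -/

set_option autoImplicit false

namespace VK

theorem bcl_cross (e : Fn) (he : Nc e) (w p z : Pt) (hw : ev e w = 0) (hp : ev e p = 0)
    (hz : ev e z = 0) : (z.1 - w.1) * (p.2 - w.2) - (z.2 - w.2) * (p.1 - w.1) = 0 := by
  unfold ev at hw hp hz
  rcases he with h | h
  · apply mul_left_cancel₀ h
    linear_combination (p.2 - w.2) * (hz - hw) - (z.2 - w.2) * (hp - hw)
  · apply mul_left_cancel₀ h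
    linear_combination (z.1 - w.1) * (hp - hw) - (p.1 - w.1) * (hz - hw)

theorem bcl_col (e F G : Fn) (he : Nc e) (w p z : Pt) (hw : ev e w = 0) (hp : ev e p = 0)
    (hz : ev e z = 0) :
    (ev F z - ev F w) * (ev G p - ev G w) = (ev F p - ev F w) * (ev G z - ev G w) := by
  have h := bcl_cross e he w p z hw hp hz
  unfold ev
  linear_combination (F.a * G.b - F.b * G.a) * h

/-- the coordinate along a line -/
def tt (e : Fn) : Fn := ⟨-e.b, e.a, 0⟩

theorem tt_inj (e : Fn) (he : Nc e) (w z : Pt) (hw : ev e w = 0) (hz : ev e z = 0)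
    (h : ev (tt e) w = ev (tt e) z) : w = z := by
  unfold ev tt at *
  simp only at h
  have hpos : 0 < e.a ^ 2 + e.b ^ 2 := by
    rcases he with h | h
    · positivity
    · positivity
  have h1 : (e.a ^ 2 + e.b ^ 2) * (w.1 - z.1) = 0 := by
    linear_combination e.a * (hw - hz) - e.b * h
  have h2 : (e.a ^ 2 + e.b ^ 2) * (w.2 - z.2) = 0 := by
    linear_combination e.b * (hw - hz) + e.a * h
  have h3 := (mul_eq_zero.1 h1).resolve_left hpos.ne'
  have h4 := (mul_eq_zero.1 h2).resolve_left hpos.ne'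
  exact Prod.ext (by linarith) (by linarith)

theorem bcl_end (T : Finset Pt) (e1 e2 f : Fn) (he2 : Nc e2) (hT : ∀ z ∈ T, ev e2 z = 0)
    (h2 : 2 ≤ T.card) (w0 : Pt) (hw0 : w0 ∈ T) (hf0 : ev f w0 = 0) (hf : ∀ z ∈ T, 0 ≤ ev f z)
    (he0 : ev e1 w0 ≠ 0) :
    ∃ w ∈ T, ∃ t : Fn, ev f w = 0 ∧ ev e1 w ≠ 0 ∧ ev t w = 0 ∧ ∀ z ∈ T, z ≠ w → 0 < ev t z := by
  have htz : ∀ w ∈ T, ∀ z ∈ T, z ≠ w → ev (tt e2) w ≠ ev (tt e2) z := fun w hw z hz hzw h =>
    hzw (tt_inj e2 he2 w z (hT w hw) (hT z hz) h).symm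
  by_cases hc : ∃ z ∈ T, ev f z ≠ 0
  · obtain ⟨z1, hz1, hfz1⟩ := hc
    refine ⟨w0, hw0, f, hf0, he0, hf0, fun z hz hzw => ?_⟩
    refine lt_of_le_of_ne (hf z hz) (fun h => ?_)
    have h3 := bcl_col e2 f (tt e2) he2 w0 z1 z (hT _ hw0) (hT _ hz1) (hT _ hz)
    rw [← h, hf0, sub_zero, zero_mul, sub_zero] at h3
    have h4 := (mul_eq_zero.1 h3.symm).resolve_left hfz1
    exact htz w0 hw0 z hz hzw (by linarith)
  · push Not at hc
    obtain ⟨wm, hwm, hmin⟩ := Finset.exists_min_image T (ev (tt e2)) ⟨w0, hw0⟩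
    obtain ⟨wM, hwM, hmax⟩ := Finset.exists_max_image T (ev (tt e2)) ⟨w0, hw0⟩
    have hne : wM ≠ wm := by
      intro h
      obtain ⟨a, ha, b, hb, hab⟩ := Finset.one_lt_card.1 (show 1 < T.card by omega)
      apply htz a ha b hb (Ne.symm hab)
      have h3 := hmin a ha
      have h4 := hmax a ha
      have h5 := hmin b hb
      have h6 := hmax b hb
      rw [h] at h4 h6
      linarith
    by_cases he : ev e1 wm ≠ 0
    · refine ⟨wm, hwm, lin 1 (tt e2) 0 (tt e2) (-(ev (tt e2) wm)), hc _ hwm, he, ?_, ?_⟩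
      · rw [ev_lin]; ring
      · intro z hz hzw
        rw [ev_lin]
        have h3 := lt_of_le_of_ne (hmin z hz) (htz wm hwm z hz hzw)
        linarith
    · push Not at he
      have heM : ev e1 wM ≠ 0 := by
        intro h
        have h3 := bcl_col e2 e1 (tt e2) he2 wm wM w0 (hT _ hwm) (hT _ hwM) (hT _ hw0)
        rw [h, he, sub_zero, sub_zero, zero_mul] at h3
        have h4 := (mul_eq_zero.1 h3).resolve_left he0
        exact htz wm hwm wM hwM hne (by linarith)
      refine ⟨wM, hwM, lin (-1) (tt e2) 0 (tt e2) (ev (tt e2) wM), hc _ hwM, heM, ?_, ?_⟩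
      · rw [ev_lin]; ring
      · intro z hz hzw
        rw [ev_lin]
        have h3 := lt_of_le_of_ne (hmax z hz) (fun h => htz wM hwM z hz hzw h.symm)
        linarith

theorem BCL_proved (hW : WLM_stmt) (hK : KFM_stmt) (hD : DTL_stmt) (hC : CUT_stmt) :
    BCL_stmt := by
  classical
  intro A B g e1 e2 k1 k2 hAB he1 he2 hg hA1 hB1 hk1 hA2 hB2 hk2 hl1 hl2 hnl
  set X1 := A.filter (fun z => 0 < ev g z) with hX1
  set Y1 := B.filter (fun z => 0 < ev g z) with hY1
  set X2 := A.filter (fun z => ev g z < 0) with hX2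
  set Y2 := B.filter (fun z => ev g z < 0) with hY2
  have hX1A : ∀ z ∈ X1, z ∈ A ∧ 0 < ev g z := fun z hz => Finset.mem_filter.1 hz
  have hY1B : ∀ z ∈ Y1, z ∈ B ∧ 0 < ev g z := fun z hz => Finset.mem_filter.1 hz
  have hX2A : ∀ z ∈ X2, z ∈ A ∧ ev g z < 0 := fun z hz => Finset.mem_filter.1 hz
  have hY2B : ∀ z ∈ Y2, z ∈ B ∧ ev g z < 0 := fun z hz => Finset.mem_filter.1 hz
  have hS1 : ∀ z ∈ X1 ∪ Y1, ev e1 z = 0 ∧ 0 < ev g z := by
    intro z hz
    rcases Finset.mem_union.1 hz with h | h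
    · exact ⟨hl1 z (Finset.mem_union_left _ (hX1A z h).1) (hX1A z h).2, (hX1A z h).2⟩
    · exact ⟨hl1 z (Finset.mem_union_right _ (hY1B z h).1) (hY1B z h).2, (hY1B z h).2⟩
  have hS2 : ∀ z ∈ X2 ∪ Y2, ev e2 z = 0 ∧ ev g z < 0 := by
    intro z hz
    rcases Finset.mem_union.1 hz with h | h
    · exact ⟨hl2 z (Finset.mem_union_left _ (hX2A z h).1) (hX2A z h).2, (hX2A z h).2⟩
    · exact ⟨hl2 z (Finset.mem_union_right _ (hY2B z h).1) (hY2B z h).2, (hY2B z h).2⟩
  have hc1 : 2 ≤ (X1 ∪ Y1).card := by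
    rw [Finset.card_union_of_disjoint (Finset.disjoint_filter_filter hAB), hA1, hB1]
    omega
  have hc2 : 2 ≤ (X2 ∪ Y2).card := by
    rw [Finset.card_union_of_disjoint (Finset.disjoint_filter_filter hAB), hA2, hB2]
    omega
  have hmem : ∀ z ∈ A ∪ B, z ∈ X1 ∪ Y1 ∨ z ∈ X2 ∪ Y2 := by
    intro z hz
    rcases lt_or_gt_of_ne (hg z hz) with h | h
    · right
      rcases Finset.mem_union.1 hz with h' | h'
      · exact Finset.mem_union_left _ (Finset.mem_filter.2 ⟨h', h⟩)
      · exact Finset.mem_union_right _ (Finset.mem_filter.2 ⟨h', h⟩)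
    · left
      rcases Finset.mem_union.1 hz with h' | h'
      · exact Finset.mem_union_left _ (Finset.mem_filter.2 ⟨h', h⟩)
      · exact Finset.mem_union_right _ (Finset.mem_filter.2 ⟨h', h⟩)
  -- a point of the second side which is not on the first line
  have hex : ∃ z ∈ X2 ∪ Y2, ev e1 z ≠ 0 := by
    by_contra hcon
    push Not at hcon
    apply hnl
    refine ⟨e1, he1, fun z hz => ?_⟩
    rcases hmem z hz with h | h
    · exact (hS1 z h).1
    · exact hcon z h
  obtain ⟨f, w0, hw0, hfw0, hew0, hf0, hfneg⟩ := hW (X2 ∪ Y2) e1 g (fun z hz => (hS2 z hz).2) hex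
  obtain ⟨w, hw, t, hfw, hew, htw, htpos⟩ := bcl_end (X2 ∪ Y2) e1 e2 f he2
    (fun z hz => (hS2 z hz).1) hc2 w0 hw0 hfw0 hf0 hew0
  obtain ⟨p, hp, hpw⟩ : ∃ p ∈ X2 ∪ Y2, p ≠ w := by
    obtain ⟨a, ha, b, hb, hab⟩ := Finset.one_lt_card.1 (show 1 < (X2 ∪ Y2).card by omega)
    by_cases h : a = w
    · exact ⟨b, hb, fun h' => hab (h.trans h'.symm)⟩
    · exact ⟨a, ha, h⟩
  obtain ⟨d, u, hu, hdu, hdw, hdpos, hdp⟩ := hD (X1 ∪ Y1) e1 f w p he1 (fun z hz => (hS1 z hz).1)
    hc1 hew hfw (fun z hz => hfneg z (hS1 z hz).1 (hS1 z hz).2) hpw (hf0 p hp)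
  have hdneg : ∀ z ∈ X2 ∪ Y2, z ≠ w → ev d z < 0 := by
    intro z hz hzw
    have h1 := bcl_col e2 d t he2 w p z (hS2 _ hw).1 (hS2 _ hp).1 (hS2 _ hz).1
    rw [hdw, htw, sub_zero, sub_zero, sub_zero, sub_zero] at h1
    have h2 := htpos z hz hzw
    have h3 := htpos p hp hpw
    have h4 : ev d z * ev t p < 0 := by
      rw [h1]
      exact mul_neg_of_neg_of_pos hdp h2
    by_contra h5
    push Not at h5
    have h6 := mul_nonneg h5 h3.le
    linarith
  have heu : ev e2 u ≠ 0 := by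
    intro h
    have h1 := bcl_col e2 d g he2 w p u (hS2 _ hw).1 (hS2 _ hp).1 h
    rw [hdw, hdu, sub_zero, sub_zero, zero_mul] at h1
    have h2 := (hS1 u hu).2
    have h3 := (hS2 w hw).2
    rcases mul_eq_zero.1 h1.symm with h4 | h4
    · linarith
    · linarith
  have hXn1 : X1.Nonempty := Finset.card_pos.1 (by omega)
  have hYn1 : Y1.Nonempty := Finset.card_pos.1 (by omega)
  have hXn2 : X2.Nonempty := Finset.card_pos.1 (by omega)
  have hYn2 : Y2.Nonempty := Finset.card_pos.1 (by omega)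
  -- the two sides
  have hside1 : ∃ A1 B1 : Finset Pt, A1 ⊆ A ∧ B1 ⊆ B ∧ (∀ z ∈ A1 ∪ B1, 0 ≤ ev d z) ∧
      Fge A1 B1 (k1 + 1) := by
    obtain ⟨⟨K, hK1, hK2, -⟩, ⟨K', hK1', hK2', -⟩⟩ := hK X1 Y1 e1 w hXn1 hYn1
      (fun z hz => (hS1 z hz).1) hew
    have hpos : ∀ z ∈ X1 ∪ Y1, 0 ≤ ev d z := by
      intro z hz
      by_cases h : z = u
      · rw [h, hdu]
      · exact (hdpos z hz h).le
    rcases Finset.mem_union.1 hw with h | h
    · refine ⟨insert w X1, Y1, ?_, Finset.filter_subset _ _, ?_, K, hK1, by omega⟩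
      · exact Finset.insert_subset (hX2A w h).1 (Finset.filter_subset _ _)
      · intro z hz
        rw [Finset.insert_union, Finset.mem_insert] at hz
        rcases hz with rfl | hz
        · rw [hdw]
        · exact hpos z hz
    · refine ⟨X1, insert w Y1, Finset.filter_subset _ _, ?_, ?_, K', hK1', by omega⟩
      · exact Finset.insert_subset (hY2B w h).1 (Finset.filter_subset _ _)
      · intro z hz
        rw [Finset.union_insert, Finset.mem_insert] at hz
        rcases hz with rfl | hz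
        · rw [hdw]
        · exact hpos z hz
  have hside2 : ∃ A2 B2 : Finset Pt, A2 ⊆ A ∧ B2 ⊆ B ∧ (∀ z ∈ A2 ∪ B2, z = u ∨ z ∈ X2 ∪ Y2) ∧
      Fge A2 B2 (k2 + 1) := by
    obtain ⟨⟨K, hK1, hK2, -⟩, ⟨K', hK1', hK2', -⟩⟩ := hK X2 Y2 e2 u hXn2 hYn2
      (fun z hz => (hS2 z hz).1) heu
    rcases Finset.mem_union.1 hu with h | h
    · refine ⟨insert u X2, Y2, ?_, Finset.filter_subset _ _, ?_, K, hK1, by omega⟩
      · exact Finset.insert_subset (hX1A u h).1 (Finset.filter_subset _ _)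
      · intro z hz
        rw [Finset.insert_union, Finset.mem_insert] at hz
        exact hz
    · refine ⟨X2, insert u Y2, Finset.filter_subset _ _, ?_, ?_, K', hK1', by omega⟩
      · exact Finset.insert_subset (hY1B u h).1 (Finset.filter_subset _ _)
      · intro z hz
        rw [Finset.union_insert, Finset.mem_insert] at hz
        exact hz
  obtain ⟨A1, B1, hA1s, hB1s, hpos1, hF1⟩ := hside1
  obtain ⟨A2, B2, hA2s, hB2s, hsub2, hF2⟩ := hside2
  have hneg2 : ∀ z ∈ A2 ∪ B2, ev d z ≤ 0 := by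
    intro z hz
    rcases hsub2 z hz with rfl | h
    · rw [hdu]
    · by_cases h' : z = w
      · rw [h', hdw]
      · exact (hdneg z h h').le
  have hzero : ∀ z ∈ A2 ∪ B2, ev d z = 0 → z ∈ ({u, w} : Finset Pt) := by
    intro z hz hz0
    rw [Finset.mem_insert, Finset.mem_singleton]
    rcases hsub2 z hz with h | h
    · exact Or.inl h
    · right
      by_contra h'
      have := hdneg z h h'
      linarith
  have hfin := hC A B A1 B1 A2 B2 d (k1 + 1) (k2 + 1) 1 hA1s hB1s hA2s hB2s hpos1 hneg2 (by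
    intro E hE
    have h1 : E.card ≤ ((A2.filter (fun z => ev d z = 0)) ×ˢ
        (B2.filter (fun z => ev d z = 0))).card := Finset.card_le_card hE.1
    rw [Finset.card_product] at h1
    have h2 : (A2.filter (fun z => ev d z = 0) ∪ B2.filter (fun z => ev d z = 0)).card ≤ 2 := by
      refine (Finset.card_le_card (t := ({u, w} : Finset Pt)) ?_).trans Finset.card_le_two
      intro z hz
      rcases Finset.mem_union.1 hz with h | h
      · exact hzero z (Finset.mem_union_left _ (Finset.mem_filter.1 h).1) (Finset.mem_filter.1 h).2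
      · exact hzero z (Finset.mem_union_right _ (Finset.mem_filter.1 h).1)
          (Finset.mem_filter.1 h).2
    rw [Finset.card_union_of_disjoint (Finset.disjoint_filter_filter
      (Finset.disjoint_of_subset_left hA2s (Finset.disjoint_of_subset_right hB2s hAB)))] at h2
    generalize (A2.filter (fun z => ev d z = 0)).card = a at h1 h2
    generalize (B2.filter (fun z => ev d z = 0)).card = b at h1 h2
    have h3 : a ≤ 2 := by omega
    interval_cases a
    · omega
    · omega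
    · have : b = 0 := by omega
      subst this
      omega) hF1 hF2
  have e : k1 + 1 + (k2 + 1) - 1 = k1 + k2 + 1 := by omega
  rwa [e] at hfin

end VK
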